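import Pool.Agent.L0h45.AV.Stm

/-!
# Project AV, module LP2: the tuples modulo `p ^ 2`
-/

set_option autoImplicit false

namespace Pool.Agent.L0h52.AV

open Pool.Agent.N874.PP (Tup chA chB)
open Pool.Agent.N922.PQ (dsc)
open Pool.Agent.L0h45.AV

theorem t_LP2 (h1 : S_LPU) (h2 : S_LPN) : S_LP2 := by
  intro p hp hp5 a b hd
  have e1 := h1 p hp hp5 a b hd
  have e2 := h2 p hp hp5 a b hd
  have hU : {B : Tup ℤ | B ∈ Bo (p ^ 2) ∧ (p : ℤ) ^ 2 ∣ chA B - a ∧ (p : ℤ) ^ 2 ∣ chB B - b} =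
      {B | B ∈ Bo (p ^ 2) ∧ ¬ (p : ℤ) ∣ B.x ∧ (p : ℤ) ^ 2 ∣ chA B - a ∧ (p : ℤ) ^ 2 ∣ chB B - b} ∪
      {B | B ∈ Bo (p ^ 2) ∧ (p : ℤ) ∣ B.x ∧ (p : ℤ) ^ 2 ∣ chA B - a ∧ (p : ℤ) ^ 2 ∣ chB B - b} := by
    ext B
    simp only [Set.mem_setOf_eq, Set.mem_union]
    tauto
  rw [hU]
  refine (Set.ncard_union_le _ _).trans ((add_le_add e1 e2).trans ?_)
  obtain ⟨k, rfl⟩ : ∃ k, p = k + 1 := ⟨p - 1, by omega⟩
  have h3 : (k + 1) ^ 3 - (k + 1) = (k + 1) * (k * (k + 2)) := by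
    have : (k + 1) ^ 3 = (k + 1) * (k * (k + 2)) + (k + 1) := by ring
    omega
  rw [h3, Nat.add_sub_cancel]
  split_ifs
  · apply le_of_eq
    ring
  · apply le_of_eq
    ring

end Pool.Agent.L0h52.AV
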